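import Mathlib
import Pool.Agent.H57.Cong

namespace Pool.Agent.Results.MP_f8e877_nt.Fails

open Finset Pool.Agent.H57.Cong

/-- the sum in part (c) -/
def S (p : ℕ) : ℚ :=
  ∑ k ∈ range p, (35 * (k : ℚ) + 9) * ((2 * k).choose k : ℚ) ^ 2 * (T (3 * k) 6 1 / (-512) ^ k)

/-- Part (c) fails. -/
theorem result : ¬ ∀ p : ℕ, p.Prime → 7 < p →
    Cong p 2 (S p) (9 / 32 * p * (jacobiSym 2 p : ℚ) * (25 + 7 * (jacobiSym p 7 : ℚ))) := by
  intro h
  have := h 11 (by norm_num) (by norm_num)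
  rw [show jacobiSym 2 11 = -1 by norm_num, show jacobiSym ((11 : ℕ) : ℤ) 7 = 1 by norm_num] at this
  refine not_cong (by norm_num) ?_ this
  simp only [S, T, Nat.choose_eq_descFactorial_div_factorial]
  decide +kernel

end Pool.Agent.Results.MP_f8e877_nt.Fails
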